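import Pool.Agent.Lib.EngelQ.Final

/-!
# MP_553e84_al, Q1: the identity (V-r) is not inherited by quotients of finite groups

The definitions `iterComm` and `VR` used in the statement are in
`Pool/Agent/Lib/EngelQ/Basic.lean`.
-/

open EngelQ

namespace Pool.Agent.Results.MP_553e84_al.QuotientFails

/-- There is a finite group `G` with a normal subgroup `N` such that `G` satisfies (V-r) for all
`r ≥ 9` but `G ⧸ N` does not satisfy (V-r) for any `r ≤ 10`. In particular, for `r = 9` and for
`r = 10` the class of finite groups which satisfy (V-r) is not closed under quotients. -/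
theorem result : ∃ (G : Type) (_ : Group G) (_ : Finite G) (N : Subgroup G) (_ : N.Normal),
    (∀ r, 9 ≤ r → VR r G) ∧ ∀ r, r ≤ 10 → ¬ VR r (G ⧸ N) := by
  obtain ⟨G, i1, i2, N, i3, h1, h2⟩ := main
  refine ⟨G, i1, i2, N, i3, fun r hr x y hxy => iterComm_one_of_le x y hr (h1 x y hxy),
    fun r hr h => h2 fun x y hxy => iterComm_one_of_le x y hr (h x y hxy)⟩

end Pool.Agent.Results.MP_553e84_al.QuotientFails
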